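import Pool.Agent.P.MP_c4850b_lc.Arith

/-!
Ershov's question: the elementary theory of a free pro-`p` group of rank at least 2 is undecidable.
-/

namespace Pool.Agent.Results.MP_c4850b_lc.Undecidable

open Pool.Agent.P.MP_c4850b_lc

theorem result (p : ℕ) (hp : p.Prime) (X F : Type) [Nontrivial X] [Group F] [TopologicalSpace F]
    (ι : X → F) (h : IsFreeProP p ι) : ¬ ComputablePred fun n => n ∈ theoryCodes F := by
  obtain ⟨i₀, i₁, hi⟩ := exists_pair_ne X
  exact undecidable h hp hi

end Pool.Agent.Results.MP_c4850b_lc.Undecidable
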